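import Pool.Agent.Lib.MP_c1e359_an.Defs
import Pool.Agent.Lib.MP_c1e359_an.Main

/-!
There is a model `(M, E)` of ZFC in which, for every set `G` and every isometric linear embedding
of `ℓ∞ / c₀` into `ℓ∞(G)` (given by `J`), every bounded operator `f` from `c₀(ω₁)` to the quotient
`Q` of `ℓ∞(G)` by the range of `J` lifts to a bounded operator `T` from `c₀(ω₁)` to `ℓ∞(G)`.
-/

namespace Pool.Agent.Results.MP_c1e359_an.LiftingConsistent

open Pool.Agent.Lib.MP_5d9fac_lc Pool.Agent.Lib.MP_c1e359_an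

theorem result : ∃ (M : Type 1) (E : M → M → Prop), IsZFC E ∧ ∃ w w1 : M, IsOmega E w ∧
    IsSuccCard E w1 w ∧ ∀ F : RF M, IsReals E F → ∀ c0 lw c1 G lG J Q f : M, IsC0 E F w c0 w →
      IsLinf E F lw w → IsC0 E F w c1 w1 → IsLinf E F lG G → IsQuotEmb E F J c0 lw lG →
      IsQuot E F Q lG J → IsQuotOperator E F f c1 Q lG →
      ∃ T, IsOperator E F T c1 lG ∧ ∀ x u q, App E T x u → App E f x q → E u q :=
  main

end Pool.Agent.Results.MP_c1e359_an.LiftingConsistent
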